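import Mathlib

set_option autoImplicit false

open Polynomial

namespace Pool.Agent.Lib.MP_b58525_ag

/-- The data from which the bad ring is built: a domain `P`, a field `F` of characteristic two,
an embedding `ι : P → F`, a subring `S` of `F` containing `P`, and an element `w ∈ S`
that is extremely well approximated by elements of `P`. -/
structure Datum (P F : Type) [CommRing P] [IsDomain P] [Field F] [CharP F 2] where
  ι : P →+* F
  S : Subring F
  w : F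
  x : P
  hι : ∀ p, ι p ∈ S
  hw : w ∈ S
  h1 : ∀ s ∈ S, ∃ v ∈ S, (1 + ι x * s) * v = 1
  h2 : ∀ h : P[X], h ≠ 0 → ∀ f : P, f ≠ 0 → ∃ a g : P, (∃ s ∈ S, w = ι a + ι g * s) ∧
      h.eval (a ^ 2) ≠ 0 ∧ x * f * h.eval (a ^ 2) ∣ g
  h3 : ∀ I : Ideal P, ∀ b : P,
      (⟨ι b, hι b⟩ : S) ∈ I.map (ι.codRestrict S hι) → b ∈ I

variable {P F : Type} [CommRing P] [IsDomain P] [Field F] [CharP F 2]

namespace Datum

variable (D : Datum P F)

lemma ι_eq_mul_mem {b f : P} {s : F} (hs : s ∈ D.S) (h : D.ι b = D.ι f * s) : f ∣ b := by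
  rw [← Ideal.mem_span_singleton]
  apply D.h3
  rw [Ideal.map_span, Set.image_singleton, Ideal.mem_span_singleton]
  refine ⟨⟨s, hs⟩, ?_⟩
  ext
  exact h

lemma ι_injective : Function.Injective D.ι := by
  rw [injective_iff_map_eq_zero]
  intro a ha
  have := D.ι_eq_mul_mem (b := a) (f := 0) (s := 0) D.S.zero_mem (by simp [ha])
  exact zero_dvd_iff.mp this

lemma ι_ne_zero {a : P} (ha : a ≠ 0) : D.ι a ≠ 0 := by
  intro h
  exact ha (D.ι_injective (by simpa using h))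

/-- Evaluation of polynomials at `w ^ 2`. -/
noncomputable def φ : P[X] →+* F := Polynomial.eval₂RingHom D.ι (D.w ^ 2)

lemma φ_mem (h : P[X]) : D.φ h ∈ D.S := by
  simp only [φ, coe_eval₂RingHom, eval₂_eq_sum_range]
  exact Subring.sum_mem _ fun i _ => D.S.mul_mem (D.hι _) (D.S.pow_mem (D.S.pow_mem D.hw _) _)

@[simp] lemma φ_C (a : P) : D.φ (C a) = D.ι a := by simp [φ]

@[simp] lemma φ_X : D.φ X = D.w ^ 2 := by simp [φ]

/-- Taylor approximation. -/
lemma φ_approx {a g : P} (hs : ∃ s ∈ D.S, D.w = D.ι a + D.ι g * s) (h : P[X]) :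
    ∃ t ∈ D.S, D.φ h = D.ι (h.eval (a ^ 2)) + D.ι g * t := by
  obtain ⟨s, hsS, hs⟩ := hs
  have h1 : D.φ (C (h.eval (a ^ 2))) = D.ι (h.eval (a ^ 2)) := D.φ_C _
  obtain ⟨q, hq⟩ := Polynomial.X_sub_C_dvd_sub_C_eval (a := a ^ 2) (p := h)
  refine ⟨(D.ι g * s ^ 2) * D.φ q, D.S.mul_mem (D.S.mul_mem (D.hι _) (D.S.pow_mem hsS _))
    (D.φ_mem q), ?_⟩
  have h2 : D.φ h = D.ι (h.eval (a ^ 2)) + D.φ (h - C (h.eval (a ^ 2))) := by
    rw [map_sub, h1]; ring
  rw [h2, hq, map_mul, map_sub, φ_X, φ_C, map_pow]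
  have h3 : D.w ^ 2 = D.ι a ^ 2 + D.ι g * (D.ι g * s ^ 2) := by
    have h20 : (2 : F) = 0 := CharTwo.two_eq_zero
    rw [hs]
    linear_combination (D.ι a * D.ι g * s) * h20
  rw [h3]; ring

lemma exists_factor {h : P[X]} (hh : h ≠ 0) {f : P} (hf : f ≠ 0) :
    ∃ a g : P, (∃ s ∈ D.S, D.w = D.ι a + D.ι g * s) ∧ h.eval (a ^ 2) ≠ 0 ∧
      (∃ e, g = D.x * f * h.eval (a ^ 2) * e) ∧
      ∃ s ∈ D.S, D.φ h = D.ι (h.eval (a ^ 2)) * (1 + D.ι D.x * s) := by
  obtain ⟨a, g, hw, hne, e, he⟩ := D.h2 h hh f hf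
  obtain ⟨t, ht, hte⟩ := D.φ_approx hw h
  refine ⟨a, g, hw, hne, ⟨e, he⟩, D.ι f * D.ι e * t,
    D.S.mul_mem (D.S.mul_mem (D.hι _) (D.hι _)) ht, ?_⟩
  rw [hte, he]
  simp only [map_mul]
  ring

lemma φ_ne_zero {h : P[X]} (hh : h ≠ 0) : D.φ h ≠ 0 := by
  obtain ⟨a, g, -, hne, -, s, hs, hse⟩ := D.exists_factor hh one_ne_zero
  obtain ⟨v, -, hv⟩ := D.h1 s hs
  rw [hse]
  refine mul_ne_zero (D.ι_ne_zero hne) ?_
  intro h0
  rw [h0, zero_mul] at hv
  exact zero_ne_one hv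

/-- The ring `A = K(w ^ 2) ∩ S`. -/
noncomputable def A : Subring F where
  carrier := {z | z ∈ D.S ∧ ∃ a b : P[X], b ≠ 0 ∧ z * D.φ b = D.φ a}
  mul_mem' := by
    rintro z z' ⟨hz, a, b, hb, h⟩ ⟨hz', a', b', hb', h'⟩
    refine ⟨D.S.mul_mem hz hz', a * a', b * b', mul_ne_zero hb hb', ?_⟩
    rw [map_mul, map_mul, ← h, ← h']; ring
  one_mem' := ⟨D.S.one_mem, 1, 1, one_ne_zero, by simp⟩
  add_mem' := by
    rintro z z' ⟨hz, a, b, hb, h⟩ ⟨hz', a', b', hb', h'⟩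
    refine ⟨D.S.add_mem hz hz', a * b' + a' * b, b * b', mul_ne_zero hb hb', ?_⟩
    rw [map_mul, map_add, map_mul, map_mul, ← h, ← h']; ring
  zero_mem' := ⟨D.S.zero_mem, 0, 1, one_ne_zero, by simp⟩
  neg_mem' := by
    rintro z ⟨hz, a, b, hb, h⟩
    exact ⟨D.S.neg_mem hz, -a, b, hb, by rw [map_neg, ← h]; ring⟩

lemma mem_A {z : F} : z ∈ D.A ↔ z ∈ D.S ∧ ∃ a b : P[X], b ≠ 0 ∧ z * D.φ b = D.φ a := Iff.rfl

lemma ι_mem_A (a : P) : D.ι a ∈ D.A :=
  ⟨D.hι a, C a, 1, one_ne_zero, by simp⟩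

lemma φ_mem_A (h : P[X]) : D.φ h ∈ D.A :=
  ⟨D.φ_mem h, h, 1, one_ne_zero, by simp⟩

lemma w_sq_mem_A : D.w ^ 2 ∈ D.A := by
  simpa using D.φ_mem_A X

/-- Closure of `A` under exact division. -/
lemma div_mem_A {z y q : F} (hz : z ∈ D.A) (hy : y ∈ D.A) (hy0 : y ≠ 0) (hq : q ∈ D.S)
    (h : z = y * q) : q ∈ D.A := by
  obtain ⟨-, a, b, hb, h1⟩ := hz
  obtain ⟨-, c, d, hd, h2⟩ := hy
  have hc : c ≠ 0 := by
    rintro rfl
    rw [map_zero] at h2
    rcases mul_eq_zero.mp h2 with h3 | h3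
    · exact hy0 h3
    · exact D.φ_ne_zero hd h3
  refine ⟨hq, a * d, b * c, mul_ne_zero hb hc, ?_⟩
  rw [map_mul, map_mul, ← h1, ← h2, h]; ring

/-- Every nonzero element of `A` divides a nonzero element of `P`. -/
lemma exists_mem_of_A {r : F} (hr : r ∈ D.A) (hr0 : r ≠ 0) :
    ∃ f : P, f ≠ 0 ∧ ∃ s ∈ D.A, D.ι f = r * s := by
  obtain ⟨hrS, a, b, hb, hab⟩ := id hr
  have ha : a ≠ 0 := by
    rintro rfl
    rw [map_zero] at hab
    rcases mul_eq_zero.mp hab with h3 | h3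
    · exact hr0 h3
    · exact D.φ_ne_zero hb h3
  obtain ⟨c, g, -, hne, -, s, hs, hse⟩ := D.exists_factor ha one_ne_zero
  obtain ⟨v, hvS, hv⟩ := D.h1 s hs
  refine ⟨a.eval (c ^ 2), hne, D.φ b * v, ?_, ?_⟩
  · refine D.div_mem_A (D.ι_mem_A (a.eval (c ^ 2))) hr hr0 (D.S.mul_mem (D.φ_mem _) hvS) ?_
    rw [← mul_assoc, hab, hse, mul_assoc, hv, mul_one]
  · rw [← mul_assoc, hab, hse, mul_assoc, hv, mul_one]

/-- `A = P + f A`. -/
lemma A_decomp {r : F} (hr : r ∈ D.A) {f : P} (hf : f ≠ 0) :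
    ∃ c : P, ∃ t ∈ D.A, r = D.ι c + D.ι f * t := by
  obtain ⟨hrS, a', b, hb, hab⟩ := id hr
  obtain ⟨a, g, hw, hne, e, he⟩ := D.h2 b hb f hf
  obtain ⟨s1, hs1, hs1e⟩ := D.φ_approx hw b
  obtain ⟨s2, hs2, hs2e⟩ := D.φ_approx hw a'
  set c := b.eval (a ^ 2) with hc
  have hιc : D.ι c ≠ 0 := D.ι_ne_zero hne
  have hιf : D.ι f ≠ 0 := D.ι_ne_zero hf
  rw [hs1e, hs2e, he] at hab
  simp only [map_mul] at hab
  have key : D.ι (a'.eval (a ^ 2)) = D.ι c * (r + (D.ι D.x * D.ι f * D.ι e) * (r * s1 - s2)) := by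
    linear_combination -hab
  have hmem : r * s1 - s2 ∈ D.S := D.S.sub_mem (D.S.mul_mem hrS hs1) hs2
  have hmem2 : r + (D.ι D.x * D.ι f * D.ι e) * (r * s1 - s2) ∈ D.S :=
    D.S.add_mem hrS (D.S.mul_mem (D.S.mul_mem (D.S.mul_mem (D.hι _) (D.hι _)) (D.hι _)) hmem)
  obtain ⟨c', hc'⟩ := D.ι_eq_mul_mem hmem2 key
  rw [hc', map_mul] at key
  have key2 := mul_left_cancel₀ hιc key
  have key3 : r - D.ι c' = D.ι f * (-(D.ι D.x * D.ι e * (r * s1 - s2))) := by
    rw [key2]; ring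
  refine ⟨c', -(D.ι D.x * D.ι e * (r * s1 - s2)), ?_, ?_⟩
  · refine D.div_mem_A (D.A.sub_mem hr (D.ι_mem_A c')) (D.ι_mem_A f) hιf ?_ key3
    exact D.S.neg_mem (D.S.mul_mem (D.S.mul_mem (D.hι _) (D.hι _)) hmem)
  · rw [← key3]; ring

/-- `w` is not in the fraction field of `A`. -/
lemma A_indep {α β : F} (hα : α ∈ D.A) (hβ : β ∈ D.A) (h : α + β * D.w = 0) : β = 0 := by
  by_contra hβ0
  obtain ⟨-, a, b, hb, h1⟩ := hα
  obtain ⟨-, c, d, hd, h2⟩ := hβ
  have hc : c ≠ 0 := by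
    rintro rfl
    rw [map_zero] at h2
    rcases mul_eq_zero.mp h2 with h3 | h3
    · exact hβ0 h3
    · exact D.φ_ne_zero hd h3
  -- (a d)^2 = (c b)^2 X
  have h3 : D.φ a * D.φ d = - (D.φ c * D.φ b * D.w) := by
    rw [← h1, ← h2]
    linear_combination (D.φ b * D.φ d) * h
  have h4 : D.φ ((a * d) ^ 2 - (c * b) ^ 2 * X) = 0 := by
    simp only [map_sub, map_mul, map_pow, φ_X]
    rw [h3]; ring
  have h5 : (a * d) ^ 2 - (c * b) ^ 2 * X = 0 := by
    by_contra h6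
    exact D.φ_ne_zero h6 h4
  have h6 : (a * d) ^ 2 = (c * b) ^ 2 * X := sub_eq_zero.mp h5
  have hcb : c * b ≠ 0 := mul_ne_zero hc hb
  have h7 := congrArg natDegree h6
  rw [natDegree_pow, natDegree_mul (pow_ne_zero _ hcb) X_ne_zero, natDegree_pow, natDegree_X] at h7
  omega

/-- The ring `R = A + A w`. -/
noncomputable def R : Subring F where
  carrier := {z | ∃ α ∈ D.A, ∃ β ∈ D.A, z = α + β * D.w}
  mul_mem' := by
    rintro z z' ⟨α, hα, β, hβ, rfl⟩ ⟨α', hα', β', hβ', rfl⟩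
    refine ⟨α * α' + β * β' * D.w ^ 2, ?_, α * β' + β * α', ?_, by ring⟩
    · exact D.A.add_mem (D.A.mul_mem hα hα') (D.A.mul_mem (D.A.mul_mem hβ hβ') D.w_sq_mem_A)
    · exact D.A.add_mem (D.A.mul_mem hα hβ') (D.A.mul_mem hβ hα')
  one_mem' := ⟨1, D.A.one_mem, 0, D.A.zero_mem, by ring⟩
  add_mem' := by
    rintro z z' ⟨α, hα, β, hβ, rfl⟩ ⟨α', hα', β', hβ', rfl⟩
    exact ⟨α + α', D.A.add_mem hα hα', β + β', D.A.add_mem hβ hβ', by ring⟩
  zero_mem' := ⟨0, D.A.zero_mem, 0, D.A.zero_mem, by ring⟩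
  neg_mem' := by
    rintro z ⟨α, hα, β, hβ, rfl⟩
    exact ⟨-α, D.A.neg_mem hα, -β, D.A.neg_mem hβ, by ring⟩

lemma mem_R {z : F} : z ∈ D.R ↔ ∃ α ∈ D.A, ∃ β ∈ D.A, z = α + β * D.w := Iff.rfl

lemma A_le_R : D.A ≤ D.R := fun z hz => ⟨z, hz, 0, D.A.zero_mem, by ring⟩

lemma A_le_S : D.A ≤ D.S := fun _ hz => hz.1

lemma R_le_S : D.R ≤ D.S := by
  rintro z ⟨α, hα, β, hβ, rfl⟩
  exact D.S.add_mem hα.1 (D.S.mul_mem hβ.1 D.hw)

lemma w_mem_R : D.w ∈ D.R := ⟨0, D.A.zero_mem, 1, D.A.one_mem, by ring⟩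

lemma sq_mem_A {r : F} (hr : r ∈ D.R) : r ^ 2 ∈ D.A := by
  obtain ⟨α, hα, β, hβ, rfl⟩ := hr
  have h20 : (2 : F) = 0 := CharTwo.two_eq_zero
  have : (α + β * D.w) ^ 2 = α ^ 2 + β ^ 2 * D.w ^ 2 := by
    linear_combination (α * β * D.w) * h20
  rw [this]
  exact D.A.add_mem (D.A.pow_mem hα _) (D.A.mul_mem (D.A.pow_mem hβ _) D.w_sq_mem_A)

/-- Every nonzero element of `R` divides a nonzero element of `P`. -/
lemma exists_mem_of_R {r : F} (hr : r ∈ D.R) (hr0 : r ≠ 0) :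
    ∃ f : P, f ≠ 0 ∧ ∃ s ∈ D.R, D.ι f = r * s := by
  obtain ⟨f, hf, s, hs, hfs⟩ := D.exists_mem_of_A (D.sq_mem_A hr) (pow_ne_zero 2 hr0)
  exact ⟨f, hf, r * s, D.R.mul_mem hr (D.A_le_R hs), by rw [hfs]; ring⟩

/-- The structure map `P → R`. -/
noncomputable def j : P →+* D.R := D.ι.codRestrict D.R fun p => D.A_le_R (D.ι_mem_A p)

@[simp] lemma coe_j (p : P) : ((D.j p : D.R) : F) = D.ι p := rfl

lemma j_injective : Function.Injective D.j := by
  intro a b h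
  apply D.ι_injective
  rw [← D.coe_j, ← D.coe_j, h]

lemma exists_j_mem {I : Ideal D.R} (hI : I ≠ ⊥) : ∃ f : P, f ≠ 0 ∧ D.j f ∈ I := by
  obtain ⟨r, hrI, hr0⟩ := Submodule.exists_mem_ne_zero_of_ne_bot hI
  obtain ⟨f, hf, s, hs, hfs⟩ := D.exists_mem_of_R r.2 (by simpa using hr0)
  refine ⟨f, hf, ?_⟩
  have : D.j f = r * ⟨s, hs⟩ := by
    ext; simpa using hfs
  rw [this]
  exact I.mul_mem_right _ hrI

/-- the element `w` of `R`. -/
noncomputable def ω : D.R := ⟨D.w, D.w_mem_R⟩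

@[simp] lemma coe_ω : ((D.ω : D.R) : F) = D.w := rfl

lemma R_decomp (r : D.R) {f : P} (hf : f ≠ 0) :
    ∃ a b : P, ∃ t : D.R, r = D.j a + D.j b * D.ω + D.j f * t := by
  obtain ⟨r, hr⟩ := r
  obtain ⟨α, hα, β, hβ, rfl⟩ := hr
  obtain ⟨a, s, hs, rfl⟩ := D.A_decomp hα hf
  obtain ⟨b, t, ht, rfl⟩ := D.A_decomp hβ hf
  refine ⟨a, b, ⟨s + t * D.w, ⟨s, hs, t, ht, rfl⟩⟩, ?_⟩
  ext
  simp only [Subring.coe_add, Subring.coe_mul, coe_j, coe_ω]
  ring

lemma R_sq_decomp (r : D.R) {f : P} (hf : f ≠ 0) :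
    ∃ a : P, ∃ t : D.R, r ^ 2 = D.j a + D.j f * t := by
  obtain ⟨a, t, ht, h⟩ := D.A_decomp (D.sq_mem_A r.2) hf
  refine ⟨a, ⟨t, D.A_le_R ht⟩, ?_⟩
  ext
  simpa using h

instance isNoetherianRing_R [IsNoetherianRing P] : IsNoetherianRing D.R := by
  rw [isNoetherianRing_iff_ideal_fg]
  intro I
  by_cases hI : I = ⊥
  · rw [hI]; exact Submodule.fg_bot
  obtain ⟨f, hf, hfI⟩ := D.exists_j_mem hI
  classical
  set J : Ideal D.R := Ideal.span {D.j f} with hJ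
  let : Algebra P D.R := D.j.toAlgebra
  have hfin : Module.Finite P (D.R ⧸ J) := by
    refine ⟨⟨{Ideal.Quotient.mk J 1, Ideal.Quotient.mk J D.ω}, ?_⟩⟩
    rw [eq_top_iff]
    rintro y -
    obtain ⟨r, rfl⟩ := Ideal.Quotient.mk_surjective y
    obtain ⟨a, b, t, rfl⟩ := D.R_decomp r hf
    have h0 : Ideal.Quotient.mk J (D.j f * t) = 0 := by
      rw [Ideal.Quotient.eq_zero_iff_mem]
      exact J.mul_mem_right _ (Ideal.subset_span rfl)
    rw [map_add, h0, add_zero]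
    have h1 : Ideal.Quotient.mk J (D.j a + D.j b * D.ω) =
        a • Ideal.Quotient.mk J 1 + b • Ideal.Quotient.mk J D.ω := by
      rw [Algebra.smul_def, Algebra.smul_def, map_add, map_mul, map_one, mul_one]
      rfl
    rw [h1]
    refine Submodule.add_mem _ (Submodule.smul_mem _ _ (Submodule.subset_span ?_))
      (Submodule.smul_mem _ _ (Submodule.subset_span ?_)) <;> simp
  have hN : IsNoetherian P (D.R ⧸ J) := inferInstance
  have hNR : IsNoetherianRing (D.R ⧸ J) := isNoetherian_of_tower P hN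
  apply Submodule.fg_of_fg_map_of_fg_inf_ker (Ideal.Quotient.mkₐ D.R J).toLinearMap
  · have h2 : IsNoetherian D.R (D.R ⧸ J) := by
      exact isNoetherian_of_tower P hN
    exact h2.noetherian _
  · have : LinearMap.ker (Ideal.Quotient.mkₐ D.R J).toLinearMap = J := by
      ext r
      simp [Ideal.Quotient.eq_zero_iff_mem]
    rw [this, inf_eq_right.mpr]
    · exact ⟨{D.j f}, by simp [hJ]⟩
    · rw [hJ, Ideal.span_le, Set.singleton_subset_iff]
      exact hfI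

/-- Contraction of extended ideals. -/
lemma comap_map_j (p : Ideal P) : (p.map D.j).comap D.j = p := by
  refine le_antisymm ?_ Ideal.le_comap_map
  intro b hb
  apply D.h3
  rw [Ideal.mem_comap] at hb
  have h1 := Ideal.mem_map_of_mem (Subring.inclusion D.R_le_S) hb
  rw [Ideal.map_map] at h1
  exact h1

lemma comap_le_comap_iff {Q₁ Q₂ : Ideal D.R} [Q₂.IsPrime] :
    Q₁.comap D.j ≤ Q₂.comap D.j ↔ Q₁ ≤ Q₂ := by
  refine ⟨fun h => ?_, fun h => Ideal.comap_mono h⟩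
  by_cases hQ : Q₁ = ⊥
  · rw [hQ]; exact bot_le
  obtain ⟨f, hf, hfQ⟩ := D.exists_j_mem hQ
  intro r hr
  obtain ⟨a, t, hat⟩ := D.R_sq_decomp r hf
  have hf2 : D.j f ∈ Q₂ := h hfQ
  have ha1 : D.j a ∈ Q₁ := by
    have : D.j a = r * r - D.j f * t := by rw [← pow_two, hat]; ring
    rw [this]
    exact Q₁.sub_mem (Q₁.mul_mem_left _ hr) (Q₁.mul_mem_right _ hfQ)
  have ha2 : D.j a ∈ Q₂ := h ha1
  have : r ^ 2 ∈ Q₂ := by
    rw [hat]
    exact Q₂.add_mem ha2 (Q₂.mul_mem_right _ hf2)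
  exact Ideal.IsPrime.mem_of_pow_mem ‹_› _ this

/-- The prime spectra of `R` and `P` are isomorphic as posets. -/
noncomputable def specIso : PrimeSpectrum D.R ≃o PrimeSpectrum P :=
  RelIso.ofSurjective
    (OrderEmbedding.ofMapLEIff (PrimeSpectrum.comap D.j) (fun Q₁ Q₂ => by
      rw [← PrimeSpectrum.asIdeal_le_asIdeal, ← PrimeSpectrum.asIdeal_le_asIdeal]
      exact D.comap_le_comap_iff)) (by
    intro p
    obtain ⟨q, hq, hqp⟩ := (Ideal.comap_map_eq_self_iff_of_isPrime p.asIdeal).mp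
      (D.comap_map_j p.asIdeal)
    exact ⟨⟨q, hq⟩, by ext1; exact hqp⟩)

lemma ringKrullDim_R : ringKrullDim D.R = ringKrullDim P :=
  Order.krullDim_eq_of_orderIso D.specIso

/-- The quotient of the normalization by the ring, as a module over the ring. -/
abbrev NormQuot (R : Type) [CommRing R] [IsDomain R] : Type :=
  (integralClosure R (FractionRing R)) ⧸
    LinearMap.range (Algebra.linearMap R (integralClosure R (FractionRing R)))

lemma isAssociatedPrime_of_height_one [IsNoetherianRing P] (Q : Ideal D.R) [hQ : Q.IsPrime]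
    (hht : Q.height = 1) :
    IsAssociatedPrime Q (NormQuot D.R) := by
  have hQ0 : Q ≠ ⊥ := by
    rintro rfl
    rw [Ideal.height_bot] at hht
    exact zero_ne_one hht
  obtain ⟨f, hf, hfQ⟩ := D.exists_j_mem hQ0
  obtain ⟨a, g, ⟨s, hs, hse⟩, -, e, he⟩ := D.h2 1 one_ne_zero f hf
  set K := FractionRing D.R
  have hjf : D.j f ≠ 0 := by
    intro h
    exact hf (D.j_injective (by rw [h, map_zero]))
  have hjf' : algebraMap D.R K (D.j f) ≠ 0 := by
    intro h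
    exact hjf ((IsFractionRing.injective D.R K) (by rw [h, map_zero]))
  -- the integral element
  set y : K := algebraMap D.R K (D.ω - D.j a) / algebraMap D.R K (D.j f) with hy
  -- its square is in `R`
  have hιf : D.ι f ≠ 0 := D.ι_ne_zero hf
  have h20 : (2 : F) = 0 := CharTwo.two_eq_zero
  have hsq : D.w ^ 2 - D.ι a ^ 2 = D.ι f ^ 2 * (D.ι D.x * D.ι e * s) ^ 2 := by
    rw [hse, he]
    simp only [map_mul, eval_one, map_one]
    linear_combination (D.ι a * D.ι D.x * D.ι f * D.ι e * s) * h20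
  have hzA : (D.ι D.x * D.ι e * s) ^ 2 ∈ D.A := by
    refine D.div_mem_A (D.A.sub_mem D.w_sq_mem_A (D.A.pow_mem (D.ι_mem_A a) 2))
      (D.A.pow_mem (D.ι_mem_A f) 2) (pow_ne_zero 2 hιf) ?_ hsq
    exact D.S.pow_mem (D.S.mul_mem (D.S.mul_mem (D.hι _) (D.hι _)) hs) 2
  set z : D.R := ⟨_, D.A_le_R hzA⟩ with hz
  have hsqR : (D.ω - D.j a) ^ 2 = D.j f ^ 2 * z := by
    ext
    simp only [Subring.coe_pow, AddSubgroupClass.coe_sub, Subring.coe_mul, coe_ω, coe_j, hz]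
    rw [← hsq]
    linear_combination (D.ι a ^ 2 - D.w * D.ι a) * h20
  have hy2 : y ^ 2 = algebraMap D.R K z := by
    rw [hy, div_pow, ← map_pow, hsqR, map_mul, map_pow]
    exact mul_div_cancel_left₀ _ (pow_ne_zero 2 hjf')
  have hyint : IsIntegral D.R y := by
    refine ⟨X ^ 2 - C z, monic_X_pow_sub_C z two_ne_zero, ?_⟩
    simp [hy2]
  -- the class of `y`
  set N := integralClosure D.R K
  set y' : N := ⟨y, hyint⟩ with hy'
  let M := NormQuot D.R
  let mk : N →ₗ[D.R] M := (LinearMap.range (Algebra.linearMap D.R N)).mkQ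
  -- annihilator
  have hann : ∀ r : D.R, r • mk y' = 0 → r ∈ Q := by
    intro r hr
    rw [← map_smul] at hr
    have hr2 : r • y' ∈ LinearMap.range (Algebra.linearMap D.R N) := by
      rwa [Submodule.mkQ_apply, Submodule.Quotient.mk_eq_zero] at hr
    obtain ⟨c, hc⟩ := hr2
    have hc2 : algebraMap D.R K c = algebraMap D.R K r * y := by
      have := congrArg (Subtype.val) hc
      simpa [Algebra.smul_def] using this
    have hc3 : c * D.j f = r * (D.ω - D.j a) := by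
      apply IsFractionRing.injective D.R K
      rw [map_mul, map_mul, hc2, hy, mul_assoc, div_mul_cancel₀ _ hjf']
    -- multiply by r
    have hc4 : r * c * D.j f = r ^ 2 * (D.ω - D.j a) := by
      rw [mul_assoc, hc3]; ring
    obtain ⟨α, hα, β, hβ, hαβ⟩ := (r * c).2
    have hc5 := congrArg (Subtype.val) hc4
    rw [Subring.coe_mul D.R (r * c) (D.j f), hαβ] at hc5
    simp only [Subring.coe_mul, Subring.coe_pow, AddSubgroupClass.coe_sub, coe_ω, coe_j] at hc5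
    have hr2A : (r : F) ^ 2 ∈ D.A := D.sq_mem_A r.2
    have hc6 : (α * D.ι f + (r : F) ^ 2 * D.ι a) + (β * D.ι f - (r : F) ^ 2) * D.w = 0 := by
      linear_combination hc5
    have hc7 := D.A_indep (D.A.add_mem (D.A.mul_mem hα (D.ι_mem_A f))
      (D.A.mul_mem hr2A (D.ι_mem_A a)))
      (D.A.sub_mem (D.A.mul_mem hβ (D.ι_mem_A f)) hr2A) hc6
    have hc8 : r ^ 2 = ⟨β, D.A_le_R hβ⟩ * D.j f := by
      ext
      simp only [Subring.coe_pow, Subring.coe_mul, coe_j]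
      exact (sub_eq_zero.mp hc7).symm
    have hc9 : r ^ 2 ∈ Q := by
      rw [hc8]
      exact Q.mul_mem_left _ hfQ
    exact hQ.mem_of_pow_mem 2 hc9
  have hfann : D.j f • mk y' = 0 := by
    rw [← map_smul, Submodule.mkQ_apply, Submodule.Quotient.mk_eq_zero]
    refine ⟨D.ω - D.j a, ?_⟩
    apply Subtype.ext
    have : algebraMap D.R K (D.ω - D.j a) = algebraMap D.R K (D.j f) * y := by
      rw [hy, mul_div_cancel₀ _ hjf']
    simpa [Algebra.smul_def] using this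
  -- the submodule generated by the class of `y`
  set W : Submodule D.R M := Submodule.span D.R {mk y'} with hW
  have hannW : ∀ r : D.R, r ∈ Module.annihilator D.R W ↔ r • mk y' = 0 := by
    intro r
    rw [Module.mem_annihilator]
    constructor
    · intro h
      have := h ⟨mk y', Submodule.mem_span_singleton_self _⟩
      simpa using congrArg Subtype.val this
    · rintro h ⟨m, hm⟩
      obtain ⟨c, rfl⟩ := Submodule.mem_span_singleton.mp hm
      apply Subtype.ext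
      change r • c • mk y' = 0
      rw [smul_comm, h, smul_zero]
  have hle : Module.annihilator D.R W ≤ Q := fun r hr => hann r ((hannW r).mp hr)
  have hfW : D.j f ∈ Module.annihilator D.R W := (hannW _).mpr hfann
  have hmin : Q ∈ (Module.annihilator D.R W).minimalPrimes := by
    refine ⟨⟨hQ, hle⟩, ?_⟩
    rintro Q' ⟨hQ'p, hQ'le⟩ hQ'Q
    by_contra hcon
    have hlt : Q' < Q := lt_of_le_not_ge hQ'Q hcon
    have h1 : Q'.height < Q.height := Ideal.height_strict_mono_of_isPrime hlt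
    rw [hht, Order.lt_one_iff, Ideal.height_eq_zero_iff_eq_bot] at h1
    rw [h1] at hQ'le
    have h3 : D.j f = 0 := by simpa using hQ'le hfW
    exact hjf h3
  have hWfin : Module.Finite D.R W := by
    rw [hW]; infer_instance
  have h2 := Module.associatedPrimes.minimalPrimes_annihilator_subset_associatedPrimes D.R W hmin
  exact IsAssociatedPrime.map_of_injective W.subtype h2 W.injective_subtype

lemma exists_annihilator_eq [IsNoetherianRing P] (Q : Ideal D.R) (hQ : Q.IsPrime)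
    (hht : Q.height = 1) :
    ∃ m : (integralClosure D.R (FractionRing D.R)) ⧸
        LinearMap.range (Algebra.linearMap D.R (integralClosure D.R (FractionRing D.R))),
      ∀ r : D.R, r ∈ Q ↔ r • m = 0 := by
  have h := D.isAssociatedPrime_of_height_one Q hht
  obtain ⟨-, m, hm⟩ := isAssociatedPrime_iff.mp h
  refine ⟨m, fun r => ?_⟩
  rw [hm, Submodule.mem_colon_singleton, Submodule.mem_bot]

end Datum

end Pool.Agent.Lib.MP_b58525_ag
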