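import Mathlib

set_option autoImplicit false

open Polynomial Filter

namespace Pool.Agent.Lib.MP_b58525_ag

section Sequence

variable {P : Type} [CommRing P]

open Classical in
/-- One bookkeeping step. -/
noncomputable def step (x : P) (H : ℕ → P[X]) (n : ℕ) (s : P × P) : P × P :=
  (s.1 + s.2, s.2 * (x * ∏ i ∈ Finset.range (n + 1),
    if (H i).eval ((s.1 + s.2) ^ 2) = 0 then 1 else (H i).eval ((s.1 + s.2) ^ 2)))

/-- The bookkeeping sequence of pairs `(a n, g n)`. -/
noncomputable def seq (x : P) (H : ℕ → P[X]) : ℕ → P × P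
  | 0 => (0, 1)
  | n + 1 => step x H n (seq x H n)

variable (x : P) (H : ℕ → P[X])

noncomputable def sa (n : ℕ) : P := (seq x H n).1
noncomputable def sg (n : ℕ) : P := (seq x H n).2

lemma sa_succ (n : ℕ) : sa x H (n + 1) = sa x H n + sg x H n := rfl

open Classical in
lemma sg_succ (n : ℕ) : sg x H (n + 1) = sg x H n * (x * ∏ i ∈ Finset.range (n + 1),
    if (H i).eval (sa x H (n + 1) ^ 2) = 0 then 1 else (H i).eval (sa x H (n + 1) ^ 2)) := rfl

lemma sg_ne_zero [IsDomain P] (hx : x ≠ 0) (n : ℕ) : sg x H n ≠ 0 := by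
  classical
  induction n with
  | zero => exact one_ne_zero
  | succ n ih =>
    rw [sg_succ]
    refine mul_ne_zero ih (mul_ne_zero hx ?_)
    rw [Finset.prod_ne_zero_iff]
    intro i _
    split_ifs with h
    · exact one_ne_zero
    · exact h

lemma sg_dvd_succ (n : ℕ) : sg x H n * x ∣ sg x H (n + 1) := by
  classical
  rw [sg_succ, ← mul_assoc]
  exact Dvd.intro _ rfl

lemma sg_dvd_sg {n m : ℕ} (h : n ≤ m) : sg x H n ∣ sg x H m := by
  induction m, h using Nat.le_induction with
  | base => exact dvd_rfl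
  | succ m _ ih => exact ih.trans (dvd_trans (Dvd.intro _ rfl) (sg_dvd_succ x H m))

lemma sg_dvd_sub {n m : ℕ} (h : n ≤ m) : sg x H n ∣ sa x H m - sa x H n := by
  induction m, h using Nat.le_induction with
  | base => simp
  | succ m hm ih =>
    rw [sa_succ, add_sub_right_comm]
    exact dvd_add ih (sg_dvd_sg x H hm)

/-- Stronger form: `a m - a n = g n * (1 + x * c)` for `n < m`. -/
lemma exists_sub_eq {n m : ℕ} (h : n + 1 ≤ m) :
    ∃ c, sa x H m - sa x H n = sg x H n * (1 + x * c) := by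
  induction m, h using Nat.le_induction with
  | base => exact ⟨0, by rw [sa_succ]; ring⟩
  | succ m hm ih =>
    obtain ⟨c, hc⟩ := ih
    obtain ⟨d, hd⟩ := (sg_dvd_succ x H n).trans (sg_dvd_sg x H hm)
    refine ⟨c + d, ?_⟩
    rw [sa_succ, add_sub_right_comm, hc, hd]
    ring

lemma sa_injective [IsDomain P] (hx : x ≠ 0) (hloc : ∀ c : P, IsUnit (1 + x * c)) :
    Function.Injective (sa x H) := by
  have key : ∀ n m : ℕ, n < m → sa x H n ≠ sa x H m := by
    intro n m h heq
    obtain ⟨c, hc⟩ := exists_sub_eq x H (Nat.succ_le_of_lt h)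
    rw [heq, sub_self] at hc
    exact mul_ne_zero (sg_ne_zero x H hx n) (hloc c).ne_zero hc.symm
  intro n m h
  rcases lt_trichotomy n m with h1 | h1 | h1
  · exact absurd h (key n m h1)
  · exact h1
  · exact absurd h.symm (key m n h1)

lemma eventually_eval_ne_zero [IsDomain P] [CharP P 2] (hx : x ≠ 0) (hloc : ∀ c : P, IsUnit (1 + x * c))
    {h : P[X]} (hh : h ≠ 0) : ∀ᶠ n in atTop, h.eval (sa x H n ^ 2) ≠ 0 := by
  have hinj : Function.Injective (fun n => sa x H n ^ 2) := by
    intro n m hnm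
    apply sa_injective x H hx hloc
    exact frobenius_inj P 2 (by simpa [frobenius_def] using hnm)
  have hfin : ((fun n => sa x H n ^ 2) ⁻¹' {y | h.IsRoot y}).Finite :=
    (Polynomial.finite_setOfPred_isRoot hh).preimage hinj.injOn
  rw [← Nat.cofinite_eq_atTop]
  filter_upwards [hfin.compl_mem_cofinite] with n hn h0
  exact hn h0

lemma eventually_dvd (hH : Function.Surjective H) (h : P[X]) :
    ∀ᶠ n in atTop, h.eval (sa x H n ^ 2) ≠ 0 → x * h.eval (sa x H n ^ 2) ∣ sg x H n := by
  classical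
  obtain ⟨i, rfl⟩ := hH h
  filter_upwards [eventually_ge_atTop (i + 1)] with n hn hne
  obtain ⟨n, rfl⟩ : ∃ k, n = k + 1 := ⟨n - 1, by omega⟩
  rw [sg_succ]
  refine Dvd.dvd.mul_left (mul_dvd_mul_left x ?_) _
  have hi : i ∈ Finset.range (n + 1) := by
    rw [Finset.mem_range]; omega
  refine dvd_trans ?_ (Finset.dvd_prod_of_mem _ hi)
  rw [if_neg hne]

end Sequence

end Pool.Agent.Lib.MP_b58525_ag
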