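import Mathlib
import Pool.Agent.Lib.MP_b58525_ag.Abstract
import Pool.Agent.Lib.MP_b58525_ag.Sequence

set_option autoImplicit false

open Polynomial Filter

namespace Pool.Agent.Lib.MP_b58525_ag

section Build

variable (P : Type) [CommRing P] [IsDomain P]

/-- The ultrapower of the fraction field. -/
abbrev Ult : Type := (hyperfilter ℕ : Filter ℕ).Germ (FractionRing P)

/-- Sequences in `P` as elements of the ultrapower. -/
noncomputable def γ : (ℕ → P) →+* Ult P :=
  (Filter.Germ.coeRingHom (R := FractionRing P) (hyperfilter ℕ : Filter ℕ)).comp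
    ((algebraMap P (FractionRing P)).compLeft ℕ)

variable {P}

omit [IsDomain P] in
lemma γ_apply (σ : ℕ → P) :
    γ P σ = ((fun n => algebraMap P (FractionRing P) (σ n) : ℕ → FractionRing P) : Ult P) := rfl

omit [IsDomain P] in
lemma γ_eq_iff {σ τ : ℕ → P} : γ P σ = γ P τ ↔ ∀ᶠ n in (hyperfilter ℕ : Filter ℕ), σ n = τ n := by
  rw [γ_apply, γ_apply, Germ.coe_eq]
  constructor
  · intro h
    filter_upwards [h] with n hn
    exact IsFractionRing.injective P (FractionRing P) hn
  · intro h
    filter_upwards [h] with n hn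
    rw [hn]

lemma γ_const_injective : Function.Injective ((γ P).comp (Pi.constRingHom ℕ P)) := by
  intro a b h
  have := (γ_eq_iff (P := P)).mp h
  obtain ⟨n, hn⟩ := this.exists
  exact hn

instance [CharP P 2] : CharP (Ult P) 2 :=
  charP_of_injective_ringHom (γ_const_injective (P := P)) 2

/-- The datum on the ultrapower. -/
noncomputable def datum [IsLocalRing P] [CharP P 2] (x : P) (hx : x ≠ 0)
    (hxm : x ∈ IsLocalRing.maximalIdeal P) (H : ℕ → P[X]) (hH : Function.Surjective H) :
    Datum P (Ult P) where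
  ι := (γ P).comp (Pi.constRingHom ℕ P)
  S := (γ P).range
  w := γ P (sa x H)
  x := x
  hι := fun p => ⟨fun _ => p, rfl⟩
  hw := ⟨_, rfl⟩
  h1 := by
    rintro _ ⟨σ, rfl⟩
    have hu : ∀ c : P, IsUnit (1 + x * c) := by
      intro c
      rw [add_comm]
      have : x * c ∈ nonunits P := (IsLocalRing.maximalIdeal P).mul_mem_right c hxm
      have h2 := IsLocalRing.isUnit_or_isUnit_of_add_one (a := x * c + 1) (b := - (x * c)) (by ring)
      rcases h2 with h | h
      · exact h
      · exact absurd (by simpa using h.neg) this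
    choose v hv using fun n => (hu (σ n)).exists_right_inv
    refine ⟨γ P v, ⟨v, rfl⟩, ?_⟩
    have h1 : (1 + (γ P).comp (Pi.constRingHom ℕ P) x * γ P σ) * γ P v
        = γ P ((1 + (fun _ => x) * σ) * v) := by
      rw [map_mul, map_add, map_mul, map_one]; rfl
    rw [h1]
    have h2 : (1 + (fun _ => x) * σ) * v = 1 := by
      ext n; exact hv n
    rw [h2, map_one]
  h2 := by
    intro h hh f hf
    have hu : ∀ c : P, IsUnit (1 + x * c) := by
      intro c
      rw [add_comm]
      have : x * c ∈ nonunits P := (IsLocalRing.maximalIdeal P).mul_mem_right c hxm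
      have h2 := IsLocalRing.isUnit_or_isUnit_of_add_one (a := x * c + 1) (b := - (x * c)) (by ring)
      rcases h2 with h | h
      · exact h
      · exact absurd (by simpa using h.neg) this
    have hfh : C f * h ≠ 0 := mul_ne_zero (by simpa using hf) hh
    have e1 := eventually_eval_ne_zero x H hx hu hfh
    have e2 := eventually_dvd x H hH (C f * h)
    obtain ⟨n, hn1, hn2⟩ := (e1.and e2).exists
    have hn3 := hn2 hn1
    rw [eval_mul, eval_C] at hn1 hn3
    refine ⟨sa x H n, sg x H n, ?_, right_ne_zero_of_mul hn1, by rwa [mul_assoc]⟩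
    have hc : ∀ m, ∃ c, n ≤ m → sa x H m = sa x H n + sg x H n * c := by
      intro m
      by_cases hm : n ≤ m
      · obtain ⟨c, hc⟩ := sg_dvd_sub x H hm
        exact ⟨c, fun _ => by rw [← hc]; ring⟩
      · exact ⟨0, fun h => absurd h hm⟩
    choose c hc using hc
    refine ⟨γ P c, ⟨c, rfl⟩, ?_⟩
    have h1 : (γ P).comp (Pi.constRingHom ℕ P) (sa x H n) +
        (γ P).comp (Pi.constRingHom ℕ P) (sg x H n) * γ P c =
        γ P ((fun _ => sa x H n) + (fun _ => sg x H n) * c) := by
      rw [map_add, map_mul]; rfl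
    rw [h1, γ_eq_iff]
    have h2 : ∀ᶠ m in (hyperfilter ℕ : Filter ℕ), n ≤ m := by
      have := eventually_ge_atTop n
      rw [← Nat.cofinite_eq_atTop] at this
      exact hyperfilter_le_cofinite this
    filter_upwards [h2] with m hm
    exact hc m hm
  h3 := by
    intro I b hb
    have key : ∀ y : (γ P).range, y ∈ I.map (((γ P).comp (Pi.constRingHom ℕ P)).codRestrict
        (γ P).range (fun p => ⟨fun _ => p, rfl⟩)) →
        ∃ σ : ℕ → P, (∀ n, σ n ∈ I) ∧ (y : Ult P) = γ P σ := by
      intro y hy
      induction hy using Submodule.span_induction with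
      | mem y hy =>
        obtain ⟨p, hp, rfl⟩ := hy
        exact ⟨fun _ => p, fun _ => hp, rfl⟩
      | zero => exact ⟨0, fun _ => I.zero_mem, by simp⟩
      | add y z _ _ hy hz =>
        obtain ⟨σ, hσ, hσ'⟩ := hy
        obtain ⟨τ, hτ, hτ'⟩ := hz
        exact ⟨σ + τ, fun n => I.add_mem (hσ n) (hτ n), by
          rw [Subring.coe_add, hσ', hτ', map_add]⟩
      | smul c y _ hy =>
        obtain ⟨σ, hσ, hσ'⟩ := hy
        obtain ⟨c, τ, rfl⟩ := c
        exact ⟨τ * σ, fun n => I.mul_mem_left _ (hσ n), by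
          rw [map_mul, ← hσ']; rfl⟩
    obtain ⟨σ, hσ, hσ'⟩ := key _ hb
    have h1 : γ P (fun _ => b) = γ P σ := hσ'
    rw [γ_eq_iff] at h1
    obtain ⟨n, hn⟩ := h1.exists
    rw [hn]
    exact hσ n

lemma exists_datum [IsLocalRing P] [CharP P 2] [Countable P[X]]
    (hP : IsLocalRing.maximalIdeal P ≠ ⊥) : Nonempty (Datum P (Ult P)) := by
  obtain ⟨x, hxm, hx⟩ := Submodule.exists_mem_ne_zero_of_ne_bot hP
  obtain ⟨H, hH⟩ := exists_surjective_nat P[X]
  exact ⟨datum x hx hxm H hH⟩

end Build

lemma countable_mvPolynomial (d : ℕ) : Countable (MvPolynomial (Fin d) (ZMod 2)) := by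
  rw [← Cardinal.mk_le_aleph0_iff]
  refine MvPolynomial.cardinalMk_le_max.trans ?_
  simp

lemma countable_polynomial (P : Type) [CommRing P] [Countable P] : Countable P[X] := by
  rw [← Cardinal.mk_le_aleph0_iff]
  refine Polynomial.cardinalMk_le_max.trans ?_
  simp

lemma countable_localization (P : Type) [CommRing P] [Countable P] (S : Submonoid P) :
    Countable (Localization S) := by
  have h : Function.Surjective (fun p : P × S => Localization.mk p.1 p.2) := by
    intro y
    obtain ⟨a, b, rfl⟩ := IsLocalization.exists_mk'_eq S y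
    exact ⟨(a, b), by rw [Localization.mk_eq_mk']⟩
  exact h.countable

/-- A maximal ideal of height `d` in a polynomial ring in `d` variables. -/
lemma exists_isMaximal_height (d : ℕ) :
    ∃ m : Ideal (MvPolynomial (Fin d) (ZMod 2)), m.IsMaximal ∧ m.height = d := by
  by_contra hcon
  push Not at hcon
  have hdim : ringKrullDim (MvPolynomial (Fin d) (ZMod 2)) = d := by
    rw [MvPolynomial.ringKrullDim_of_isNoetherianRing]
    simp
  rcases d with _ | d
  · obtain ⟨m, hm⟩ := Ideal.exists_maximal (MvPolynomial (Fin 0) (ZMod 2))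
    refine hcon m hm ?_
    have := Ideal.height_le_ringKrullDim_of_ne_top hm.ne_top
    rw [hdim] at this
    simpa using this
  · have hle : ringKrullDim (MvPolynomial (Fin (d + 1)) (ZMod 2)) ≤ d := by
      rw [ringKrullDim_le_iff_isMaximal_height_le]
      intro m hm
      have h1 := Ideal.height_le_ringKrullDim_of_ne_top hm.ne_top
      rw [hdim] at h1
      have h2 : m.height ≤ ((d + 1 : ℕ) : ℕ∞) := by exact_mod_cast h1
      have h3 : m.height < ((d + 1 : ℕ) : ℕ∞) := lt_of_le_of_ne h2 (hcon m hm)
      have h4 : m.height ≤ (d : ℕ∞) := by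
        rw [Nat.cast_add, Nat.cast_one] at h3
        exact ENat.lt_natCast_add_one_iff.mp h3
      exact_mod_cast h4
    rw [hdim] at hle
    have : (d + 1 : ℕ) ≤ d := by exact_mod_cast hle
    omega

end Pool.Agent.Lib.MP_b58525_ag
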